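import Pool.Agent.H77.SG.Fr2

set_option autoImplicit false

/-!
# [H77 SG Cnt] counting the solutions of `y² = 8 w² + 1` (MP_cb3c8e_nt) (helper89)
-/

namespace Pool.Agent.H77.SG

theorem five_lt (w w' y y' : ℕ) (hw : 0 < w) (hlt : w < w') (h : y ^ 2 = 8 * w ^ 2 + 1)
    (h' : y' ^ 2 = 8 * w' ^ 2 + 1) : 5 * w < w' := by
  have a1 : 5 * w < 2 * y := by
    by_contra hc
    push Not at hc
    nlinarith [Nat.mul_le_mul hc hc, Nat.mul_pos hw hw]
  have hw' : 0 < w' := hw.trans hlt
  have a2 : 5 * w' < 2 * y' := by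
    by_contra hc
    push Not at hc
    nlinarith [Nat.mul_le_mul hc hc, Nat.mul_pos hw' hw']
  -- `t > 0`
  have hsq : (y * w') ^ 2 = (y' * w) ^ 2 + w' ^ 2 - w ^ 2 := by
    have : (y * w') ^ 2 + w ^ 2 = (y' * w) ^ 2 + w' ^ 2 := by
      rw [mul_pow, mul_pow, h, h']
      ring
    omega
  have hww : w ^ 2 < w' ^ 2 := Nat.pow_lt_pow_left hlt (by norm_num)
  have ht : y' * w < y * w' := by
    apply lt_of_pow_lt_pow_left₀ 2 (Nat.zero_le _)
    omega
  have e1 : (y * w') ^ 2 + w ^ 2 = (y' * w) ^ 2 + w' ^ 2 := by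
    rw [mul_pow, mul_pow, h, h']
    ring
  have e2 : y * w' + y' * w + w ^ 2 ≤ w' ^ 2 := by
    obtain ⟨t, ht1⟩ := Nat.exists_eq_add_of_lt ht
    nlinarith [Nat.zero_le (t * (y * w' + y' * w))]
  have e3 : 5 * w * w' < y * w' + y' * w := by
    have b1 : 5 * w * w' < 2 * y * w' := Nat.mul_lt_mul_of_pos_right a1 hw'
    have b2 : 5 * w' * w < 2 * y' * w := Nat.mul_lt_mul_of_pos_right a2 hw
    nlinarith
  have e4 : 5 * w * w' < w' * w' := by nlinarith
  exact lt_of_mul_lt_mul_right e4 (Nat.zero_le _)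

theorem cnt : CntStmt := by
  classical
  intro N hN
  have hcard : ((Finset.Icc 1 N).filter fun n => ∃ w y : ℕ, n = 16 * w ^ 2 ∧ n + 2 = 2 * y ^ 2).card ≤
      (Finset.range (Nat.log 25 N + 1)).card := by
    refine Finset.card_le_card_of_injOn (Nat.log 25) ?_ ?_
    · intro n hn
      simp only [Finset.coe_filter, Finset.mem_Icc, Set.mem_setOf_eq] at hn
      simp only [Finset.coe_range, Set.mem_Iio]
      exact Nat.lt_succ_of_le (Nat.log_mono_right hn.1.2)
    · have key : ∀ n m : ℕ, 1 ≤ n → n < m → (∃ w y : ℕ, n = 16 * w ^ 2 ∧ n + 2 = 2 * y ^ 2) →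
          (∃ w y : ℕ, m = 16 * w ^ 2 ∧ m + 2 = 2 * y ^ 2) → Nat.log 25 n < Nat.log 25 m := by
        rintro n m hn hnm ⟨w, y, h1, h2⟩ ⟨w', y', h1', h2'⟩
        have hw : 0 < w := by
          rcases Nat.eq_zero_or_pos w with h0 | h0
          · subst h0
            omega
          · exact h0
        have hlt : w < w' := by
          apply lt_of_pow_lt_pow_left₀ 2 (Nat.zero_le _)
          omega
        have h5 := five_lt w w' y y' hw hlt (by omega) (by omega)
        have h6 : n * 25 ≤ m := by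
          rw [h1, h1']
          nlinarith
        have h7 : Nat.log 25 (n * 25) ≤ Nat.log 25 m := Nat.log_mono_right h6
        rw [Nat.log_mul_base (by norm_num) (by omega)] at h7
        omega
      intro n hn m hm hnm
      simp only [Finset.coe_filter, Finset.mem_Icc, Set.mem_setOf_eq] at hn hm
      rcases lt_trichotomy n m with h | h | h
      · have := key n m hn.1.1 h hn.2 hm.2
        omega
      · exact h
      · have := key m n hm.1.1 h hm.2 hn.2
        omega
  rw [Finset.card_range] at hcard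
  exact hcard

end Pool.Agent.H77.SG
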