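import Pool.Agent.H77.SG.Fr

set_option autoImplicit false

/-!
# [H77 SG Five] the sum of squared divisors of a square modulo 5 (helper13)
-/

namespace Pool.Agent.H77.SG

namespace FiveH

theorem s2_eq (n : ℕ) : s2 n = ArithmeticFunction.sigma 2 n := by
  rw [ArithmeticFunction.sigma_apply]
  rfl

theorem s2_prime_pow {p : ℕ} (hp : p.Prime) (k : ℕ) : s2 (p ^ k) = ∑ j ∈ Finset.range (k + 1), (p ^ 2) ^ j := by
  unfold s2
  rw [Nat.sum_divisors_prime_pow hp]
  refine Finset.sum_congr rfl fun j _ => ?_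
  rw [← pow_mul, ← pow_mul, mul_comm]

theorem sum_alt (x : ZMod 5) (hx : x = -1) (e : ℕ) : ∑ j ∈ Finset.range (2 * e + 1), x ^ j = 1 := by
  subst hx
  induction e with
  | zero => simp
  | succ e ih =>
    rw [show 2 * (e + 1) + 1 = 2 * e + 1 + 1 + 1 by ring, Finset.sum_range_succ, Finset.sum_range_succ, ih]
    have h1 : (-1 : ZMod 5) ^ (2 * e + 1) = -1 := Odd.neg_one_pow ⟨e, rfl⟩
    have h2 : (-1 : ZMod 5) ^ (2 * e + 1 + 1) = 1 := Even.neg_one_pow ⟨e + 1, by ring⟩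
    rw [h1, h2]
    ring

theorem sum_zero (x : ZMod 5) (hx : x = 0) (e : ℕ) : ∑ j ∈ Finset.range (2 * e + 1), x ^ j = 1 := by
  subst hx
  rw [Finset.sum_range_succ']
  simp

theorem sum_one (x : ZMod 5) (hx : x = 1) (e : ℕ) : ∑ j ∈ Finset.range (2 * e + 1), x ^ j = (2 * e + 1 : ℕ) := by
  subst hx
  simp

theorem factor {p : ℕ} (hp : p.Prime) (e : ℕ) (h : 5 ∣ s2 (p ^ (2 * e))) : (p % 5 = 1 ∨ p % 5 = 4) ∧ e % 5 = 2 := by
  have h1 : ((s2 (p ^ (2 * e)) : ℕ) : ZMod 5) = 0 := (ZMod.natCast_eq_zero_iff _ _).2 h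
  rw [s2_prime_pow hp] at h1
  push_cast at h1
  have h5 : ∀ y : ZMod 5, y ^ 2 = 0 ∨ y ^ 2 = -1 ∨ y ^ 2 = 1 := by decide
  rcases h5 (p : ZMod 5) with h2 | h2 | h2
  · rw [sum_zero _ h2] at h1
    exact absurd h1 (by decide)
  · rw [sum_alt _ h2] at h1
    exact absurd h1 (by decide)
  · rw [sum_one _ h2] at h1
    have h3 : 5 ∣ 2 * e + 1 := (ZMod.natCast_eq_zero_iff _ _).1 h1
    have h6 : ((p % 5 : ℕ) : ZMod 5) = (p : ZMod 5) := ZMod.natCast_mod p 5
    rw [← h6] at h2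
    have h7 : p % 5 < 5 := Nat.mod_lt _ (by norm_num)
    refine ⟨?_, by omega⟩
    generalize p % 5 = r at h2 h7
    interval_cases r
    · exact absurd h2 (by decide)
    · exact Or.inl rfl
    · exact absurd h2 (by decide)
    · exact absurd h2 (by decide)
    · exact Or.inr rfl

end FiveH

open FiveH

theorem five (m : ℕ) (hm : 0 < m) (h : 5 ∣ s2 (m ^ 2)) :
    ∃ p : ℕ, p.Prime ∧ (p % 5 = 1 ∨ p % 5 = 4) ∧ m.factorization p % 5 = 2 := by
  have hm2 : m ^ 2 ≠ 0 := by positivity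
  rw [s2_eq, ArithmeticFunction.IsMultiplicative.multiplicative_factorization _
    ArithmeticFunction.isMultiplicative_sigma hm2] at h
  unfold Finsupp.prod at h
  obtain ⟨p, hp, hd⟩ := (Nat.Prime.prime (by norm_num : Nat.Prime 5)).exists_mem_finset_dvd h
  have hpp : p.Prime := Nat.prime_of_mem_primeFactors (by simpa using hp)
  have hd2 : 5 ∣ ArithmeticFunction.sigma 2 (p ^ ((m ^ 2).factorization p)) := hd
  rw [← s2_eq, Nat.factorization_pow, Finsupp.smul_apply, smul_eq_mul] at hd2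
  have := factor hpp _ hd2
  exact ⟨p, hpp, this.1, this.2⟩

/-- the two sides of the Pell equation -/
theorem fiveW (w y : ℕ) (hw : 0 < w) (hy : Odd y) (h : s2 (16 * w ^ 2) = s2 (2 * y ^ 2)) :
    ∃ p : ℕ, p.Prime ∧ (p % 5 = 1 ∨ p % 5 = 4) ∧ w.factorization p % 5 = 2 := by
  have h1 : s2 (2 * y ^ 2) = 5 * s2 (y ^ 2) := by
    have hc : Nat.Coprime 2 (y ^ 2) := by
      apply Nat.Coprime.pow_right
      exact (Nat.coprime_two_left).2 hy
    rw [s2_eq, ArithmeticFunction.isMultiplicative_sigma.map_mul_of_coprime hc, ← s2_eq, ← s2_eq]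
    have h2 : s2 2 = 5 := by decide
    rw [h2]
  have h2 : 5 ∣ s2 ((4 * w) ^ 2) := by
    rw [show (4 * w) ^ 2 = 16 * w ^ 2 by ring, h, h1]
    exact Dvd.intro _ rfl
  obtain ⟨p, hp, hp5, he⟩ := five (4 * w) (by positivity) h2
  refine ⟨p, hp, hp5, ?_⟩
  have hp2 : p ≠ 2 := by
    rintro rfl
    omega
  have h3 : (4 * w).factorization p = w.factorization p := by
    rw [Nat.factorization_mul (by norm_num) hw.ne', Finsupp.add_apply]
    have h4 : (4 : ℕ).factorization p = 0 := by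
      apply Nat.factorization_eq_zero_of_not_dvd
      intro hd
      have h5 : p ∣ 2 ^ 2 := by simpa using hd
      exact hp2 ((Nat.prime_dvd_prime_iff_eq hp Nat.prime_two).1 (hp.dvd_of_dvd_pow h5))
    rw [h4, zero_add]
  rwa [h3] at he

end Pool.Agent.H77.SG
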