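import Mathlib

set_option autoImplicit false

/-!
# [H77 SG Fr] sums of squared divisors with odd value (MP_cb3c8e_nt): statements of the modules (helper77)
-/

namespace Pool.Agent.H77.SG

/-- the sum of the squares of the divisors -/
def s2 (n : ℕ) : ℕ := ∑ d ∈ n.divisors, d ^ 2

/-- `Par`: parity. Proof: `m = 2^k l`, `l` odd; modulo 2 the sum is the number of divisors of `l`
(`Finset.sum_involution` with `d ↦ l / d`). -/
def ParStmt : Prop := ∀ m : ℕ, 0 < m → (Odd (s2 m) ↔ ∃ a : ℕ, m = a ^ 2 ∨ m = 2 * a ^ 2)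

/-- `Up`: upper bound; the sum over `j ≥ 1` of `1/(q j + r)²` is at most `2/q²`. -/
def UpStmt : Prop := ∀ (M q : ℕ) (R : Finset ℕ), 0 < M → 0 < q → (∀ r ∈ R, 0 < r ∧ r < q) →
  (∀ d ∈ M.divisors, d % q ∈ R) →
  (s2 M : ℝ) ≤ (M : ℝ) ^ 2 * ((∑ r ∈ R, 1 / (r : ℝ) ^ 2) + R.card * (2 / (q : ℝ) ^ 2))

/-- `Res`: every prime factor of `y` has `2` as a square modulo it, so is `1` or `7` modulo `8`; and `3` does not divide `y`. -/
def ResStmt : Prop := ∀ y z : ℕ, y ^ 2 + 1 = 2 * z ^ 2 → ∀ d ∈ (y ^ 2).divisors, d % 24 = 1 ∨ d % 24 = 7 ∨ d % 24 = 17 ∨ d % 24 = 23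

end Pool.Agent.H77.SG
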