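import Pool.Agent.H77.SG.Fr

set_option autoImplicit false

/-!
# [H77 SG Fr2] counting (MP_cb3c8e_nt)
-/

namespace Pool.Agent.H77.SG

open Classical in
/-- `Cnt`: `y² = 8w² + 1` (put `n = 16w²`, `n + 2 = 2y²`). Proof: for two solutions `w < w'` with `t = y w' - y' w` one has
`t (y w' + y' w) = w'² - w²`, so `t ≥ 1` and `w'² > y w' + y' w ≥ 4 w w'` (`y, y' > 2w, 2w'`; even `5 w w'`), so `w' ≥ 5 w`, `n' ≥ 25 n`;
then strong induction on `N`: the largest `n ≤ N`, the others are at most `n / 25`. -/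
def CntStmt : Prop := ∀ N : ℕ, 0 < N →
  ((Finset.Icc 1 N).filter fun n => ∃ w y : ℕ, n = 16 * w ^ 2 ∧ n + 2 = 2 * y ^ 2).card ≤ Nat.log 25 N + 1

end Pool.Agent.H77.SG
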