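import Pool.Agent.H77.SG.Fr

set_option autoImplicit false

/-!
# [H77 SG Mn] the main case distinction
-/

namespace Pool.Agent.H77.SG

theorem low (k t : ℕ) (hk : 0 < k) (ht : 0 < t) : s2 k * t ^ 2 ≤ s2 (k * t) := by
  unfold s2
  rw [Finset.sum_mul]
  have h1 : ∑ d ∈ k.divisors, d ^ 2 * t ^ 2 = ∑ e ∈ k.divisors.image (fun d => d * t), e ^ 2 := by
    rw [Finset.sum_image]
    · refine Finset.sum_congr rfl fun d _ => ?_
      ring
    · intro a _ b _ hab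
      exact Nat.eq_of_mul_eq_mul_right ht hab
  rw [h1]
  refine Finset.sum_le_sum_of_subset_of_nonneg ?_ (fun _ _ _ => Nat.zero_le _)
  intro e he
  obtain ⟨d, hd, rfl⟩ := Finset.mem_image.1 he
  rw [Nat.mem_divisors] at hd ⊢
  exact ⟨Nat.mul_dvd_mul_right hd.1 t, (Nat.mul_pos hk ht).ne'⟩

theorem mul2 (M : ℕ) (hM : Odd M) : s2 (2 * M) = 5 * s2 M := by
  have h1 : ∀ n, s2 n = ArithmeticFunction.sigma 2 n := fun n => by
    rw [ArithmeticFunction.sigma_apply, s2]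
  rw [h1, h1, ArithmeticFunction.isMultiplicative_sigma.map_mul_of_coprime
    ((Nat.coprime_two_left).2 hM), ← h1 2]
  have h2 : s2 2 = 5 := by decide
  rw [h2]

theorem sq_mod (a : ℕ) : a ^ 2 % 16 = 0 ∨ a ^ 2 % 16 = 1 ∨ a ^ 2 % 16 = 4 ∨ a ^ 2 % 16 = 9 := by
  have h : a % 16 < 16 := Nat.mod_lt _ (by norm_num)
  rw [Nat.pow_mod]
  interval_cases a % 16 <;> simp

theorem main (hpar : ParStmt) (hup : UpStmt) (hres : ResStmt) (n : ℕ) (hn : 0 < n) (h : s2 n = s2 (n + 2))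
    (hs : Odd (s2 n) ∨ ∃ a : ℕ, n = a ^ 2 ∨ n = 2 * a ^ 2 ∨ n + 2 = a ^ 2 ∨ n + 2 = 2 * a ^ 2) :
    ∃ w y : ℕ, n = 16 * w ^ 2 ∧ n + 2 = 2 * y ^ 2 ∧ 3 ∣ y := by
  have hodd : Odd (s2 n) := by
    rcases hs with hs | ⟨a, ha | ha | ha | ha⟩
    · exact hs
    · exact (hpar n hn).2 ⟨a, Or.inl ha⟩
    · exact (hpar n hn).2 ⟨a, Or.inr ha⟩
    · rw [h]
      exact (hpar (n + 2) (by omega)).2 ⟨a, Or.inl ha⟩
    · rw [h]
      exact (hpar (n + 2) (by omega)).2 ⟨a, Or.inr ha⟩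
  obtain ⟨a, ha⟩ := (hpar n hn).1 hodd
  obtain ⟨b, hb⟩ := (hpar (n + 2) (by omega)).1 (h ▸ hodd)
  have hma := sq_mod a
  have hmb := sq_mod b
  rcases ha with ha | ha <;> rcases hb with hb | hb
  · omega
  · -- n = a², n + 2 = 2 b²
    have ha2 : Even a := by
      rcases Nat.even_or_odd a with he | ho
      · exact he
      · obtain ⟨c, rfl⟩ := ho
        exfalso
        have : (2 * c + 1) ^ 2 = 2 * (2 * c ^ 2 + 2 * c) + 1 := by ring
        omega
    obtain ⟨z, hz⟩ := ha2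
    have hz2 : a ^ 2 = 4 * z ^ 2 := by rw [hz]; ring
    have hbz : b ^ 2 = 2 * z ^ 2 + 1 := by omega
    have hze : Even z := by
      rcases Nat.even_or_odd z with he | ho
      · exact he
      · obtain ⟨c, rfl⟩ := ho
        exfalso
        have : (2 * c + 1) ^ 2 = 4 * (c ^ 2 + c) + 1 := by ring
        omega
    obtain ⟨w, hw⟩ := hze
    have hzw : z ^ 2 = 4 * w ^ 2 := by rw [hw]; ring
    refine ⟨w, b, by omega, hb, ?_⟩
    by_contra h3
    have hb3 : b ^ 2 % 3 = 1 := by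
      have h4 : b % 3 = 1 ∨ b % 3 = 2 := by
        have h5 : b % 3 ≠ 0 := fun h6 => h3 (Nat.dvd_of_mod_eq_zero h6)
        have h7 : b % 3 < 3 := Nat.mod_lt _ (by norm_num)
        clear * - h5 h7
        omega
      rw [Nat.pow_mod]
      rcases h4 with h4 | h4 <;> rw [h4]
    have hw3 : w % 3 = 0 := by
      have h5 : w ^ 2 % 3 = 0 := by
        have h8 : b ^ 2 = 8 * w ^ 2 + 1 := by rw [hbz, hzw]; ring
        clear * - h8 hb3
        omega
      exact Nat.mod_eq_zero_of_dvd (Nat.prime_three.dvd_of_dvd_pow (Nat.dvd_of_mod_eq_zero h5))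
    obtain ⟨v, hv⟩ : ∃ v, w = 3 * v := ⟨w / 3, by omega⟩
    have hv2 : w ^ 2 = 9 * v ^ 2 := by rw [hv]; ring
    have hv0 : 0 < v := by
      rcases Nat.eq_zero_or_pos v with h0 | h0
      · exfalso
        have h9 : w ^ 2 = 0 := by rw [hv2, h0]; rfl
        omega
      · exact h0
    have hn144 : n = 144 * v ^ 2 := by omega
    have hbodd : Odd (b ^ 2) := ⟨z ^ 2, by omega⟩
    have e1 : s2 144 * (v ^ 2) ^ 2 ≤ s2 n := by
      rw [hn144]
      exact low 144 (v ^ 2) (by norm_num) (by positivity)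
    have e2 : s2 (n + 2) = 5 * s2 (b ^ 2) := by rw [hb, mul2 _ hbodd]
    have e3 : s2 144 = 31031 := by decide +kernel
    have hb0 : 0 < b ^ 2 := by omega
    have e4 := hup (b ^ 2) 6 {1, 5} hb0 (by norm_num) (by
      intro r hr
      simp only [Finset.mem_insert, Finset.mem_singleton] at hr
      omega) (by
      intro d hd
      rw [Nat.mem_divisors] at hd
      obtain ⟨⟨e, he⟩, -⟩ := hd
      simp only [Finset.mem_insert, Finset.mem_singleton]
      have hd2 : d % 2 ≠ 0 := by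
        intro h0
        obtain ⟨f, hf⟩ : ∃ f, d = 2 * f := ⟨d / 2, by omega⟩
        rw [hf, mul_assoc] at he
        omega
      have hd3 : d % 3 ≠ 0 := by
        intro h0
        obtain ⟨f, hf⟩ : ∃ f, d = 3 * f := ⟨d / 3, by omega⟩
        rw [hf, mul_assoc] at he
        omega
      omega)
    rw [Finset.sum_pair (by norm_num), Finset.card_pair (by norm_num)] at e4
    have e5 : (b ^ 2 : ℕ) ≤ 73 * v ^ 2 := by
      have : 1 ≤ v ^ 2 := Nat.one_le_pow _ _ hv0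
      omega
    have e6 : ((b ^ 2 : ℕ) : ℝ) ^ 2 ≤ 5329 * ((v ^ 2 : ℕ) : ℝ) ^ 2 := by
      have e7 : ((b ^ 2 : ℕ) : ℝ) ≤ 73 * ((v ^ 2 : ℕ) : ℝ) := by exact_mod_cast e5
      have e8 : (0 : ℝ) ≤ ((b ^ 2 : ℕ) : ℝ) := Nat.cast_nonneg _
      nlinarith
    have e9 : (31031 : ℝ) * ((v ^ 2 : ℕ) : ℝ) ^ 2 ≤ 5 * (s2 (b ^ 2) : ℝ) := by
      have : 31031 * (v ^ 2) ^ 2 ≤ 5 * s2 (b ^ 2) := by
        rw [← e2, ← h, ← e3]
        exact e1
      exact_mod_cast this
    have e10 : (0 : ℝ) < ((v ^ 2 : ℕ) : ℝ) ^ 2 := by positivity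
    have e11 : (1 / ((1 : ℕ) : ℝ) ^ 2 + 1 / ((5 : ℕ) : ℝ) ^ 2) + ((2 : ℕ) : ℝ) * (2 / ((6 : ℕ) : ℝ) ^ 2) =
        259 / 225 := by norm_num
    rw [e11] at e4
    nlinarith
  · -- n = 2 a², n + 2 = b²
    exfalso
    have hb2 : Even b := by
      rcases Nat.even_or_odd b with he | ho
      · exact he
      · obtain ⟨c, rfl⟩ := ho
        exfalso
        have : (2 * c + 1) ^ 2 = 2 * (2 * c ^ 2 + 2 * c) + 1 := by ring
        omega
    obtain ⟨z, hz⟩ := hb2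
    have hz2 : b ^ 2 = 4 * z ^ 2 := by rw [hz]; ring
    have haz : a ^ 2 + 1 = 2 * z ^ 2 := by omega
    have haodd : Odd (a ^ 2) := ⟨z ^ 2 - 1, by omega⟩
    have ha0 : 0 < a ^ 2 := by omega
    have hz0 : 0 < z ^ 2 := by omega
    have e1 : s2 4 * (z ^ 2) ^ 2 ≤ s2 (n + 2) := by
      rw [hb, hz2]
      exact low 4 (z ^ 2) (by norm_num) hz0
    have e2 : s2 n = 5 * s2 (a ^ 2) := by rw [ha, mul2 _ haodd]
    have e3 : s2 4 = 21 := by decide +kernel
    have e4 := hup (a ^ 2) 24 {1, 7, 17, 23} ha0 (by norm_num) (by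
      intro r hr
      simp only [Finset.mem_insert, Finset.mem_singleton] at hr
      omega) (by
      intro d hd
      simp only [Finset.mem_insert, Finset.mem_singleton]
      exact hres a z haz d hd)
    have e5 : (∑ r ∈ ({1, 7, 17, 23} : Finset ℕ), 1 / (r : ℝ) ^ 2) +
        (({1, 7, 17, 23} : Finset ℕ).card : ℝ) * (2 / ((24 : ℕ) : ℝ) ^ 2) ≤ 104 / 100 := by
      rw [Finset.sum_insert (by decide), Finset.sum_insert (by decide), Finset.sum_insert (by decide),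
        Finset.sum_singleton]
      have : ({1, 7, 17, 23} : Finset ℕ).card = 4 := by decide
      rw [this]
      norm_num
    have e6 : (s2 (a ^ 2) : ℝ) ≤ ((a ^ 2 : ℕ) : ℝ) ^ 2 * (104 / 100) :=
      e4.trans (mul_le_mul_of_nonneg_left e5 (by positivity))
    have e7 : (21 : ℝ) * ((z ^ 2 : ℕ) : ℝ) ^ 2 ≤ 5 * (s2 (a ^ 2) : ℝ) := by
      have : 21 * (z ^ 2) ^ 2 ≤ 5 * s2 (a ^ 2) := by
        rw [← e2, h, ← e3]
        exact e1
      exact_mod_cast this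
    have e8 : ((a ^ 2 : ℕ) : ℝ) + 1 = 2 * ((z ^ 2 : ℕ) : ℝ) := by exact_mod_cast haz
    have e9 : (0 : ℝ) < ((a ^ 2 : ℕ) : ℝ) := by exact_mod_cast ha0
    nlinarith
  · -- n = 2a², n + 2 = 2b²
    exfalso
    have h1 : b ^ 2 = a ^ 2 + 1 := by omega
    have h2 : a < b := lt_of_pow_lt_pow_left₀ 2 (Nat.zero_le _) (by omega)
    have h3 : (a + 1) ^ 2 ≤ b ^ 2 := Nat.pow_le_pow_left h2 2
    have h4 : (a + 1) ^ 2 = a ^ 2 + 2 * a + 1 := by ring
    have h5 : a = 0 := by omega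
    subst h5
    simp at ha
    omega

end Pool.Agent.H77.SG
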