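import Pool.Agent.H77.SG.Fr

set_option autoImplicit false

/-!
# [H77 SG Par] parity of the sum of the squared divisors (helper79)
-/

namespace Pool.Agent.H77.SG

namespace ParAux

theorem sum_one {l : ℕ} (hl : 0 < l) (S : Finset ℕ) (hS : ∀ d ∈ S, d ∈ l.divisors) (hinv : ∀ d ∈ S, l / d ∈ S)
    (hfix : ∀ d ∈ S, l / d ≠ d) : (S.card : ZMod 2) = 0 := by
  have h1 : (S.card : ZMod 2) = ∑ _d ∈ S, (1 : ZMod 2) := by simp
  rw [h1]
  refine Finset.sum_involution (fun d _ => l / d) (fun d hd => ?_) (fun d hd _ => hfix d hd) (fun d hd => hinv d hd)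
    (fun d hd => ?_)
  · decide
  · have h2 := Nat.dvd_of_mem_divisors (hS d hd)
    exact Nat.div_div_self h2 hl.ne'

theorem card_div {l : ℕ} (hl : 0 < l) : (l.divisors.card : ZMod 2) = 1 ↔ ∃ b, l = b * b := by
  constructor
  · intro h
    by_contra hno
    push Not at hno
    have h1 := sum_one hl l.divisors (fun d hd => hd)
      (fun d hd => Nat.mem_divisors.2 ⟨Nat.div_dvd_of_dvd (Nat.dvd_of_mem_divisors hd), hl.ne'⟩)
      (fun d hd he => hno d (by
        have h2 := Nat.div_mul_cancel (Nat.dvd_of_mem_divisors hd)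
        rw [he] at h2
        exact h2.symm))
    rw [h] at h1
    exact one_ne_zero h1
  · rintro ⟨b, hb⟩
    have hb0 : b ∈ l.divisors := Nat.mem_divisors.2 ⟨⟨b, hb⟩, hl.ne'⟩
    have hbp : 0 < b := Nat.pos_of_mem_divisors hb0
    have h1 := sum_one hl (l.divisors.erase b) (fun d hd => Finset.mem_of_mem_erase hd) ?_ ?_
    · rw [← Finset.card_erase_add_one hb0, Nat.cast_add, h1, zero_add, Nat.cast_one]
    · intro d hd
      rw [Finset.mem_erase] at hd ⊢
      have hdd := Nat.dvd_of_mem_divisors hd.2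
      refine ⟨fun h2 => hd.1 ?_, Nat.mem_divisors.2 ⟨Nat.div_dvd_of_dvd hdd, hl.ne'⟩⟩
      have h3 := Nat.div_mul_cancel hdd
      rw [h2, hb] at h3
      exact Nat.eq_of_mul_eq_mul_left hbp h3
    · intro d hd h2
      rw [Finset.mem_erase] at hd
      have hdd := Nat.dvd_of_mem_divisors hd.2
      have h3 := Nat.div_mul_cancel hdd
      rw [h2, hb] at h3
      exact hd.1 (Nat.mul_self_inj.1 h3)

theorem odd_div {m : ℕ} (hm : 0 < m) :
    m.divisors.filter (fun d => ¬ 2 ∣ d) = (m / 2 ^ m.factorization 2).divisors := by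
  have h0 := Nat.ordProj_mul_ordCompl_eq_self m 2
  have hl : m / 2 ^ m.factorization 2 ≠ 0 := (Nat.ordCompl_pos 2 hm.ne').ne'
  have hodd := Nat.not_dvd_ordCompl Nat.prime_two hm.ne'
  ext d
  rw [Finset.mem_filter, Nat.mem_divisors, Nat.mem_divisors]
  constructor
  · rintro ⟨⟨h1, -⟩, h2⟩
    refine ⟨?_, hl⟩
    have h3 : Nat.Coprime d (2 ^ m.factorization 2) :=
      Nat.Coprime.pow_right _ ((Nat.Prime.coprime_iff_not_dvd Nat.prime_two).2 h2).symm
    exact h3.dvd_of_dvd_mul_left (by rw [h0]; exact h1)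
  · rintro ⟨h1, -⟩
    exact ⟨⟨h1.trans (Nat.ordCompl_dvd m 2), hm.ne'⟩, fun h2 => hodd (h2.trans h1)⟩

theorem cast_s2 {m : ℕ} (hm : 0 < m) : (s2 m : ZMod 2) = ((m / 2 ^ m.factorization 2).divisors.card : ZMod 2) := by
  rw [← odd_div hm, s2, Nat.cast_sum, Finset.card_filter, Nat.cast_sum]
  refine Finset.sum_congr rfl fun d _ => ?_
  rw [Nat.cast_pow]
  by_cases h : 2 ∣ d
  · rw [(ZMod.natCast_eq_zero_iff d 2).2 h, if_neg (not_not.2 h)]
    norm_num
  · rw [if_pos h]
    have h1 : (d : ZMod 2) = 1 := by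
      rw [ZMod.natCast_eq_one_iff_odd]
      exact Nat.not_even_iff_odd.1 fun h2 => h (even_iff_two_dvd.1 h2)
    rw [h1]
    norm_num

end ParAux

open ParAux in
theorem par : ParStmt := by
  intro m hm
  have hl : 0 < m / 2 ^ m.factorization 2 := Nat.ordCompl_pos 2 hm.ne'
  rw [← ZMod.natCast_eq_one_iff_odd, cast_s2 hm, card_div hl]
  have h0 := Nat.ordProj_mul_ordCompl_eq_self m 2
  constructor
  · rintro ⟨b, hb⟩
    rw [hb] at h0
    rcases Nat.even_or_odd' (m.factorization 2) with ⟨j, hj | hj⟩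
    · refine ⟨2 ^ j * b, Or.inl ?_⟩
      rw [← h0, hj]
      ring
    · refine ⟨2 ^ j * b, Or.inr ?_⟩
      rw [← h0, hj]
      ring
  · rintro ⟨a, ha | ha⟩
    · refine ⟨a / 2 ^ a.factorization 2, ?_⟩
      rw [← Nat.ordCompl_mul, ← sq, ← ha]
    · refine ⟨a / 2 ^ a.factorization 2, ?_⟩
      have h2 : (2 : ℕ) / 2 ^ (Nat.factorization 2) 2 = 1 := by
        rw [Nat.Prime.factorization_self Nat.prime_two]
        norm_num
      rw [← Nat.ordCompl_mul, ← sq]
      conv_lhs => rw [ha, Nat.ordCompl_mul, h2, one_mul]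

end Pool.Agent.H77.SG
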