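import Pool.Agent.H77.SG.Fr

set_option autoImplicit false

/-!
# [H77 SG Res] the divisors of `y ^ 2` for `y ^ 2 + 1 = 2 z ^ 2` (helper22)
-/

namespace Pool.Agent.H77.SG

/-- products of primes `1` or `7` modulo `8` are `1` or `7` modulo `8` -/
theorem res_mul (d : ℕ) (hd : 0 < d) (h : ∀ p : ℕ, p.Prime → p ∣ d → p % 8 = 1 ∨ p % 8 = 7) : d % 8 = 1 ∨ d % 8 = 7 := by
  induction d using Nat.strong_induction_on with
  | _ d ih =>
    by_cases h1 : d = 1
    · left
      rw [h1]
    · have hp := Nat.minFac_prime h1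
      obtain ⟨e, he⟩ := Nat.minFac_dvd d
      have he0 : 0 < e := by
        rcases Nat.eq_zero_or_pos e with h0 | h0
        · rw [h0, mul_zero] at he
          omega
        · exact h0
      have hlt : e < d := by
        calc e = 1 * e := (one_mul e).symm
          _ < d.minFac * e := Nat.mul_lt_mul_of_pos_right hp.one_lt he0
          _ = d := he.symm
      have h2 := ih e hlt he0 (fun p hpp hpe => h p hpp (hpe.trans ⟨d.minFac, by rw [mul_comm]; exact he⟩))
      have h3 := h _ hp (Nat.minFac_dvd d)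
      have h4 : d % 8 = (d.minFac % 8) * (e % 8) % 8 := by
        conv_lhs => rw [he]
        rw [Nat.mul_mod]
      rcases h3 with h3 | h3 <;> rcases h2 with h2 | h2 <;> rw [h4, h3, h2] <;> decide

theorem res : ResStmt := by
  intro y z hyz d hd
  have hdv := (Nat.mem_divisors.1 hd).1
  have hne := (Nat.mem_divisors.1 hd).2
  have hd0 : 0 < d := Nat.pos_of_dvd_of_pos hdv (Nat.pos_of_ne_zero hne)
  have hodd : y % 2 = 1 := by
    by_contra hcon
    have h1 : y % 2 = 0 := by omega
    obtain ⟨w, hw⟩ := Nat.dvd_of_mod_eq_zero h1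
    rw [hw] at hyz
    have h2 : (2 * w) ^ 2 = 2 * (2 * w ^ 2) := by ring
    rw [h2] at hyz
    omega
  -- three does not divide
  have h3 : ¬ 3 ∣ d := by
    intro hcon
    have h1 : 3 ∣ y := Nat.prime_three.dvd_of_dvd_pow (hcon.trans hdv)
    obtain ⟨w, hw⟩ := h1
    rw [hw] at hyz
    have h2 : (3 * w) ^ 2 = 3 * (3 * w ^ 2) := by ring
    rw [h2] at hyz
    have h4 : z ^ 2 % 3 = 0 ∨ z ^ 2 % 3 = 1 := by
      have h5 : z % 3 = 0 ∨ z % 3 = 1 ∨ z % 3 = 2 := by omega
      rw [Nat.pow_mod]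
      rcases h5 with h5 | h5 | h5 <;> rw [h5] <;> decide
    omega
  -- every prime factor
  have h8 : ∀ p : ℕ, p.Prime → p ∣ d → p % 8 = 1 ∨ p % 8 = 7 := by
    intro p hp hpd
    have hpy : p ∣ y := hp.dvd_of_dvd_pow (hpd.trans hdv)
    have hp2 : p ≠ 2 := by
      intro h2
      rw [h2] at hpy
      omega
    haveI : Fact p.Prime := ⟨hp⟩
    have hz : (y : ZMod p) = 0 := (ZMod.natCast_eq_zero_iff y p).2 hpy
    have h1 : (y : ZMod p) ^ 2 + 1 = 2 * (z : ZMod p) ^ 2 := by
      have := congrArg (Nat.cast : ℕ → ZMod p) hyz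
      push_cast at this
      exact this
    rw [hz] at h1
    have h2 : IsSquare (2 : ZMod p) := by
      refine ⟨2 * (z : ZMod p), ?_⟩
      linear_combination 2 * h1
    exact (ZMod.exists_sq_eq_two_iff hp2).1 h2
  have h9 := res_mul d hd0 h8
  rcases h9 with h9 | h9 <;> omega

end Pool.Agent.H77.SG
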