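import Pool.Agent.H77.SG.Fr

set_option autoImplicit false

/-!
# [H77 SG Up] upper bound for the sum of the squares of the divisors (helper54)
-/

namespace Pool.Agent.H77.SG

namespace UpAux

theorem sum_sq (n : ℕ) : ∑ j ∈ Finset.range (n + 1), 1 / ((j : ℝ) + 1) ^ 2 ≤ 2 - 1 / ((n : ℝ) + 1) := by
  induction n with
  | zero => simp; norm_num
  | succ n ih =>
    rw [Finset.sum_range_succ]
    have hn : (0 : ℝ) < (n : ℝ) + 1 := by positivity
    have h1 : 1 / (((n + 1 : ℕ) : ℝ) + 1) ^ 2 ≤ 1 / ((n : ℝ) + 1) - 1 / (((n + 1 : ℕ) : ℝ) + 1) := by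
      push_cast
      rw [div_sub_div _ _ (by positivity) (by positivity), div_le_div_iff₀ (by positivity) (by positivity)]
      nlinarith
    linarith

theorem sum_sq_le (n : ℕ) : ∑ j ∈ Finset.range n, 1 / ((j : ℝ) + 1) ^ 2 ≤ 2 := by
  cases n with
  | zero => simp
  | succ n =>
    have h1 := sum_sq n
    have h2 : (0 : ℝ) ≤ 1 / ((n : ℝ) + 1) := by positivity
    linarith

theorem inner (n q r : ℕ) (hq : 0 < q) : ∑ j ∈ Finset.range (n + 1), 1 / ((q : ℝ) * j + r) ^ 2 ≤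
    1 / (r : ℝ) ^ 2 + 2 / (q : ℝ) ^ 2 := by
  have hq' : (0 : ℝ) < q := by exact_mod_cast hq
  rw [Finset.sum_range_succ']
  have h1 : ∑ j ∈ Finset.range n, 1 / ((q : ℝ) * ((j + 1 : ℕ) : ℝ) + r) ^ 2 ≤ 2 / (q : ℝ) ^ 2 := by
    calc ∑ j ∈ Finset.range n, 1 / ((q : ℝ) * ((j + 1 : ℕ) : ℝ) + r) ^ 2 ≤
        ∑ j ∈ Finset.range n, 1 / (q : ℝ) ^ 2 * (1 / ((j : ℝ) + 1) ^ 2) := by
          refine Finset.sum_le_sum fun j _ => ?_
          have hj : (0 : ℝ) < (j : ℝ) + 1 := by positivity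
          have hr : (0 : ℝ) ≤ (r : ℝ) := Nat.cast_nonneg r
          have e : 1 / (q : ℝ) ^ 2 * (1 / ((j : ℝ) + 1) ^ 2) = 1 / ((q : ℝ) * ((j : ℝ) + 1)) ^ 2 := by
            rw [mul_pow]
            field_simp
          rw [e]
          push_cast
          apply one_div_le_one_div_of_le (by positivity)
          gcongr
          linarith
      _ = 1 / (q : ℝ) ^ 2 * ∑ j ∈ Finset.range n, 1 / ((j : ℝ) + 1) ^ 2 := by rw [Finset.mul_sum]
      _ ≤ 1 / (q : ℝ) ^ 2 * 2 := by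
        have := sum_sq_le n
        gcongr
      _ = 2 / (q : ℝ) ^ 2 := by ring
  have h2 : 1 / ((q : ℝ) * ((0 : ℕ) : ℝ) + r) ^ 2 = 1 / (r : ℝ) ^ 2 := by
    rw [Nat.cast_zero, mul_zero, zero_add]
  rw [h2]
  linarith

theorem s2_eq (M : ℕ) : (s2 M : ℝ) = (M : ℝ) ^ 2 * ∑ d ∈ M.divisors, 1 / (d : ℝ) ^ 2 := by
  unfold s2
  rw [← Nat.sum_div_divisors M (fun d => d ^ 2), Nat.cast_sum, Finset.mul_sum]
  refine Finset.sum_congr rfl fun d hd => ?_
  have hdv := Nat.dvd_of_mem_divisors hd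
  have hd0 : 0 < d := Nat.pos_of_mem_divisors hd
  have hd' : (d : ℝ) ≠ 0 := by exact_mod_cast hd0.ne'
  rw [Nat.cast_pow, Nat.cast_div hdv hd', div_pow]
  ring

end UpAux

open UpAux in
theorem up : UpStmt := by
  intro M q R _ hq _ hd
  rw [s2_eq M]
  have hM' : (0 : ℝ) ≤ (M : ℝ) ^ 2 := by positivity
  refine mul_le_mul_of_nonneg_left ?_ hM'
  have h1 : ∑ d ∈ M.divisors, 1 / (d : ℝ) ^ 2 =
      ∑ x ∈ M.divisors.image (fun d => (d % q, d / q)), 1 / ((q : ℝ) * (x.2 : ℕ) + (x.1 : ℕ)) ^ 2 := by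
    rw [Finset.sum_image]
    · refine Finset.sum_congr rfl fun d _ => ?_
      have e : (d : ℝ) = (q : ℝ) * ((d / q : ℕ) : ℝ) + ((d % q : ℕ) : ℝ) := by
        exact_mod_cast (Nat.div_add_mod d q).symm
      simp only
      rw [← e]
    · intro a _ b _ hab
      simp only [Prod.mk.injEq] at hab
      rw [← Nat.div_add_mod a q, ← Nat.div_add_mod b q, hab.1, hab.2]
  rw [h1]
  have h2 : M.divisors.image (fun d => (d % q, d / q)) ⊆ R ×ˢ Finset.range (M + 1) := by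
    intro x hx
    rw [Finset.mem_image] at hx
    obtain ⟨d, hdm, rfl⟩ := hx
    rw [Finset.mem_product]
    refine ⟨hd d hdm, ?_⟩
    rw [Finset.mem_range]
    have := Nat.divisor_le hdm
    have := Nat.div_le_self d q
    simp only
    omega
  calc ∑ x ∈ M.divisors.image (fun d => (d % q, d / q)), 1 / ((q : ℝ) * (x.2 : ℕ) + (x.1 : ℕ)) ^ 2 ≤
      ∑ x ∈ R ×ˢ Finset.range (M + 1), 1 / ((q : ℝ) * (x.2 : ℕ) + (x.1 : ℕ)) ^ 2 :=
        Finset.sum_le_sum_of_subset_of_nonneg h2 fun x _ _ => by positivity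
    _ = ∑ r ∈ R, ∑ j ∈ Finset.range (M + 1), 1 / ((q : ℝ) * (j : ℕ) + (r : ℕ)) ^ 2 := by
      rw [Finset.sum_product]
    _ ≤ ∑ r ∈ R, (1 / (r : ℝ) ^ 2 + 2 / (q : ℝ) ^ 2) := Finset.sum_le_sum fun r _ => inner M q r hq
    _ = _ := by
      rw [Finset.sum_add_distrib, Finset.sum_const, nsmul_eq_mul]

end Pool.Agent.H77.SG
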