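import Pool.Agent.H77.SG.Fr

set_option autoImplicit false

/-!
# [H77 SG Val] the 2-adic and the 3-adic valuation of the sum of the squares of the divisors (helper14)
-/

namespace Pool.Agent.H77.SG.Val

open Pool.Agent.H77.SG

theorem s2_pp {p : ℕ} (hp : p.Prime) (a : ℕ) : s2 (p ^ a) = ∑ i ∈ Finset.range (a + 1), (p ^ 2) ^ i := by
  unfold s2
  rw [Nat.divisors_prime_pow hp, Finset.sum_map]
  refine Finset.sum_congr rfl fun i _ => ?_
  show (p ^ i) ^ 2 = _
  rw [← pow_mul, ← pow_mul, mul_comm]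

theorem geo {p : ℕ} (hp : p.Prime) (a : ℕ) : (p ^ 2 - 1) * s2 (p ^ a) = (p ^ 2) ^ (a + 1) - 1 := by
  rw [s2_pp hp]
  have h : 1 ≤ p ^ 2 := Nat.one_le_pow _ _ hp.pos
  have := Nat.geomSum_eq (m := p ^ 2) (by nlinarith [hp.two_le]) (a + 1)
  rw [this]
  refine Nat.mul_div_cancel' ?_
  simpa using Nat.sub_dvd_pow_sub_pow (p ^ 2) 1 (a + 1)

theorem s2_pos {n : ℕ} (hn : 0 < n) : 0 < s2 n := by
  unfold s2
  refine Finset.sum_pos (fun d hd => ?_) ⟨1, by simp [hn.ne']⟩
  exact pow_pos (Nat.pos_of_mem_divisors hd) 2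

theorem s2_mul {m n : ℕ} (h : m.Coprime n) : s2 (m * n) = s2 m * s2 n := by
  have h1 := (ArithmeticFunction.isMultiplicative_sigma (k := 2)).map_mul_of_coprime h
  simpa [ArithmeticFunction.sigma_apply, s2] using h1

/-- 2-adic valuation for odd prime powers -/
theorem v2_pp {p : ℕ} (hp : p.Prime) (h2 : p ≠ 2) (a : ℕ) :
    padicValNat 2 (s2 (p ^ a)) = padicValNat 2 (a + 1) := by
  have hodd : ¬ 2 ∣ p := fun h => h2 ((Nat.prime_dvd_prime_iff_eq Nat.prime_two hp).1 h).symm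
  have hp3 : 3 ≤ p := by
    have := hp.two_le
    omega
  have h1 := padicValNat.pow_two_sub_pow (x := p) (y := 1) (by omega) (by
    have : p % 2 = 1 := by omega
    omega) hodd (n := 2 * (a + 1)) (by omega) (even_two_mul _)
  have h3 : p ^ (2 * (a + 1)) - 1 ^ (2 * (a + 1)) = (p ^ 2 - 1) * s2 (p ^ a) := by
    rw [geo hp, one_pow, pow_mul]
  have hsq : p ^ 2 - 1 = (p + 1) * (p - 1) := by
    have := Nat.sq_sub_sq p 1
    simpa using this
  have hm : p - 1 ≠ 0 := by omega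
  have hs := (s2_pos (n := p ^ a) (pow_pos hp.pos a)).ne'
  rw [h3, hsq, padicValNat.mul (mul_ne_zero (by omega) hm) hs, padicValNat.mul (by omega) hm,
    padicValNat.mul (by norm_num) (by omega), padicValNat.self (by norm_num)] at h1
  omega

/-- 3-adic valuation for prime powers prime to 3 -/
theorem v3_pp {p : ℕ} (hp : p.Prime) (h3 : p ≠ 3) (a : ℕ) :
    padicValNat 3 (s2 (p ^ a)) = padicValNat 3 (a + 1) := by
  have : Fact (Nat.Prime 3) := ⟨Nat.prime_three⟩
  have hnd : ¬ 3 ∣ p := fun h => h3 ((Nat.prime_dvd_prime_iff_eq Nat.prime_three hp).1 h).symm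
  have hp2 := hp.two_le
  have h4 : 4 ≤ p ^ 2 := by nlinarith
  have hmod : 3 ∣ p ^ 2 - 1 := by
    have h5 : p % 3 = 1 ∨ p % 3 = 2 := by omega
    have h6 : p ^ 2 % 3 = 1 := by
      rcases h5 with h5 | h5 <;> simp [Nat.pow_mod, h5]
    omega
  have h1 := padicValNat.pow_sub_pow (p := 3) (by decide) (x := p ^ 2) (y := 1) (by omega) hmod
    (fun h => hnd (Nat.prime_three.dvd_of_dvd_pow h)) (n := a + 1) (by omega)
  rw [one_pow, ← geo hp, padicValNat.mul (by omega) (s2_pos (n := p ^ a) (pow_pos hp.pos a)).ne'] at h1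
  omega

theorem tau_pp {p : ℕ} (hp : p.Prime) (a : ℕ) : (p ^ a).divisors.card = a + 1 := by
  rw [Nat.divisors_prime_pow hp, Finset.card_map, Finset.card_range]

/-- for odd `m` -/
theorem v2 (m : ℕ) : Odd m → padicValNat 2 (s2 m) = padicValNat 2 m.divisors.card := by
  induction m using Nat.recOnPosPrimePosCoprime with
  | prime_pow p n hp hn =>
    intro ho
    rw [tau_pp hp]
    refine v2_pp hp (fun h => ?_) n
    rw [h] at ho
    exact (Nat.not_odd_iff_even.2 (Nat.even_pow.2 ⟨even_two, hn.ne'⟩)) ho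
  | zero => intro h; exact absurd h (by decide)
  | one => intro _; simp [s2]
  | coprime a b ha hb hab iha ihb =>
    intro ho
    obtain ⟨h1, h2⟩ := Nat.odd_mul.1 ho
    rw [s2_mul hab, hab.card_divisors_mul, padicValNat.mul (s2_pos (by omega)).ne' (s2_pos (by omega)).ne',
      padicValNat.mul (Finset.card_pos.2 ⟨1, by simp; omega⟩).ne' (Finset.card_pos.2 ⟨1, by simp; omega⟩).ne', iha h1, ihb h2]

/-- for `m` prime to 3 -/
theorem v3 (m : ℕ) : ¬ 3 ∣ m → padicValNat 3 (s2 m) = padicValNat 3 m.divisors.card := by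
  have : Fact (Nat.Prime 3) := ⟨Nat.prime_three⟩
  induction m using Nat.recOnPosPrimePosCoprime with
  | prime_pow p n hp hn =>
    intro ho
    rw [tau_pp hp]
    refine v3_pp hp (fun h => ho ?_) n
    rw [h]
    exact dvd_pow_self 3 hn.ne'
  | zero => intro h; exact absurd (dvd_zero 3) h
  | one => intro _; simp [s2]
  | coprime a b ha hb hab iha ihb =>
    intro ho
    have h1 : ¬ 3 ∣ a := fun h => ho (h.mul_right b)
    have h2 : ¬ 3 ∣ b := fun h => ho (h.mul_left a)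
    rw [s2_mul hab, hab.card_divisors_mul, padicValNat.mul (s2_pos (by omega)).ne' (s2_pos (by omega)).ne',
      padicValNat.mul (Finset.card_pos.2 ⟨1, by simp; omega⟩).ne' (Finset.card_pos.2 ⟨1, by simp; omega⟩).ne', iha h1, ihb h2]

/-- the factor at 2 is odd -/
theorem s2_two (a : ℕ) : ¬ 2 ∣ s2 (2 ^ a) := by
  rw [s2_pp Nat.prime_two, Finset.sum_range_succ', pow_zero]
  intro h
  have : 2 ∣ ∑ i ∈ Finset.range a, (2 ^ 2) ^ (i + 1) :=
    Finset.dvd_sum fun i _ => Dvd.dvd.trans (by norm_num) (dvd_pow_self (2 ^ 2) (Nat.succ_ne_zero i))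
  omega

theorem s2_three (a : ℕ) : ¬ 3 ∣ s2 (3 ^ a) := by
  rw [s2_pp Nat.prime_three, Finset.sum_range_succ', pow_zero]
  intro h
  have : 3 ∣ ∑ i ∈ Finset.range a, (3 ^ 2) ^ (i + 1) :=
    Finset.dvd_sum fun i _ => Dvd.dvd.trans (by norm_num) (dvd_pow_self (3 ^ 2) (Nat.succ_ne_zero i))
  omega

/-- 2-adic: `n = 2^a m`, `m` odd -/
theorem v2_all (a m : ℕ) (hm : Odd m) : padicValNat 2 (s2 (2 ^ a * m)) = padicValNat 2 m.divisors.card := by
  have hc : (2 ^ a).Coprime m := Nat.Coprime.pow_left a (Nat.coprime_two_left.2 hm)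
  have hm0 : 0 < m := hm.pos
  rw [s2_mul hc, padicValNat.mul (s2_pos (pow_pos (by norm_num) a)).ne' (s2_pos hm0).ne',
    padicValNat.eq_zero_of_not_dvd (s2_two a), zero_add, v2 m hm]

theorem v3_all (a m : ℕ) (hm : ¬ 3 ∣ m) : padicValNat 3 (s2 (3 ^ a * m)) = padicValNat 3 m.divisors.card := by
  have : Fact (Nat.Prime 3) := ⟨Nat.prime_three⟩
  have hc : (3 ^ a).Coprime m := Nat.Coprime.pow_left a ((Nat.Prime.coprime_iff_not_dvd Nat.prime_three).2 hm)
  have hm0 : 0 < m := Nat.pos_of_ne_zero fun h => hm (h ▸ dvd_zero 3)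
  rw [s2_mul hc, padicValNat.mul (s2_pos (pow_pos (by norm_num) a)).ne' (s2_pos hm0).ne',
    padicValNat.eq_zero_of_not_dvd (s2_three a), zero_add, v3 m hm]

/-- the two relations for all solutions -/
theorem rel {n : ℕ} (h : s2 n = s2 (n + 2)) {a m b k : ℕ} (hn : n = 2 ^ a * m) (hm : Odd m)
    (hn' : n + 2 = 2 ^ b * k) (hk : Odd k) : padicValNat 2 m.divisors.card = padicValNat 2 k.divisors.card := by
  rw [← v2_all a m hm, ← v2_all b k hk, ← hn, ← hn', h]

theorem rel3 {n : ℕ} (h : s2 n = s2 (n + 2)) {a m b k : ℕ} (hn : n = 3 ^ a * m) (hm : ¬ 3 ∣ m)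
    (hn' : n + 2 = 3 ^ b * k) (hk : ¬ 3 ∣ k) : padicValNat 3 m.divisors.card = padicValNat 3 k.divisors.card := by
  rw [← v3_all a m hm, ← v3_all b k hk, ← hn, ← hn', h]

theorem tau_sqf {n : ℕ} (h : Squarefree n) : n.divisors.card = 2 ^ n.primeFactors.card := by
  have hn := h.ne_zero
  rw [Nat.card_divisors hn, Finset.prod_congr rfl (g := fun _ => 2), Finset.prod_const]
  intro q hq
  have h1 := h.natFactorization_le_one q
  have h2 := (Nat.prime_of_mem_primeFactors hq).factorization_pos_of_dvd hn (Nat.dvd_of_mem_primeFactors hq)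
  omega

/-- odd and squarefree: the same number of prime factors -/
theorem sqf {n : ℕ} (hodd : Odd n) (h : s2 n = s2 (n + 2)) (h1 : Squarefree n) (h2 : Squarefree (n + 2)) :
    n.primeFactors.card = (n + 2).primeFactors.card := by
  have h3 := rel h (a := 0) (b := 0) (m := n) (k := n + 2) (by simp) hodd (by simp) (by
    rcases hodd with ⟨t, ht⟩
    exact ⟨t + 1, by omega⟩)
  rw [tau_sqf h1, tau_sqf h2, padicValNat.prime_pow, padicValNat.prime_pow] at h3
  exact h3

end Pool.Agent.H77.SG.Val
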