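import Pool.Agent.H77.SG.Fr

set_option autoImplicit false

/-!
# [H77 SG W35] the Pell case: 35 divides w and 99 divides y (helper10)
-/

namespace Pool.Agent.H77.SG

namespace W35

/-- the Pell orbit modulo 3465 -/
theorem orbit : ∀ b a : ℕ, a ^ 2 + 1 = 2 * b ^ 2 →
    (a % 3465 = 1 ∧ b % 3465 = 1) ∨ (a % 3465 = 7 ∧ b % 3465 = 5) ∨
    (a % 3465 = 41 ∧ b % 3465 = 29) ∨ (a % 3465 = 239 ∧ b % 3465 = 169) ∨
    (a % 3465 = 1393 ∧ b % 3465 = 985) ∨ (a % 3465 = 1189 ∧ b % 3465 = 2276) ∨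
    (a % 3465 = 2276 ∧ b % 3465 = 2276) ∨ (a % 3465 = 2072 ∧ b % 3465 = 985) ∨
    (a % 3465 = 3226 ∧ b % 3465 = 169) ∨ (a % 3465 = 3424 ∧ b % 3465 = 29) ∨
    (a % 3465 = 3458 ∧ b % 3465 = 5) ∨ (a % 3465 = 3464 ∧ b % 3465 = 1) := by
  intro b
  induction b using Nat.strong_induction_on with
  | _ b ih =>
    intro a h
    rcases Nat.lt_or_ge b 2 with hb | hb
    · have hb1 : b = 1 := by
        rcases Nat.eq_zero_or_pos b with h0 | h0
        · subst h0; simp at h
        · omega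
      subst hb1
      have ha : a = 1 := by nlinarith
      subst ha
      left; exact ⟨rfl, rfl⟩
    · have hb3 : 3 ≤ b := by
        rcases Nat.lt_or_ge b 3 with h3 | h3
        · have : b = 2 := by omega
          subst this
          exfalso
          have : a ^ 2 = 7 := by omega
          have h1 : a < 3 := by nlinarith
          interval_cases a <;> omega
        · exact h3
      have h1 : b < a := by nlinarith
      have h2 : 2 * a < 3 * b := by nlinarith
      have h3 : 4 * b < 3 * a := by nlinarith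
      obtain ⟨b', hb'⟩ : ∃ b', b' = 3 * b - 2 * a := ⟨_, rfl⟩
      obtain ⟨a', ha'⟩ : ∃ a', a' = 3 * a - 4 * b := ⟨_, rfl⟩
      have e1 : a = 3 * a' + 4 * b' := by omega
      have e2 : b = 2 * a' + 3 * b' := by omega
      have h4 : a' ^ 2 + 1 = 2 * b' ^ 2 := by
        subst e1; subst e2; nlinarith
      have h5 : b' < b := by omega
      have h6 := ih b' h5 a' h4
      clear h hb' ha' h1 h2 h3 h4 h5 ih hb hb3
      subst e1; subst e2
      rcases h6 with h | h | h | h | h | h | h | h | h | h | h | h <;> obtain ⟨ha, hb⟩ := h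
      · exact Or.inr (Or.inl ⟨by omega, by omega⟩)
      · exact Or.inr (Or.inr (Or.inl ⟨by omega, by omega⟩))
      · exact Or.inr (Or.inr (Or.inr (Or.inl ⟨by omega, by omega⟩)))
      · exact Or.inr (Or.inr (Or.inr (Or.inr (Or.inl ⟨by omega, by omega⟩))))
      · exact Or.inr (Or.inr (Or.inr (Or.inr (Or.inr (Or.inl ⟨by omega, by omega⟩)))))
      · exact Or.inr (Or.inr (Or.inr (Or.inr (Or.inr (Or.inr (Or.inl ⟨by omega, by omega⟩))))))
      · exact Or.inr (Or.inr (Or.inr (Or.inr (Or.inr (Or.inr (Or.inr (Or.inl ⟨by omega, by omega⟩)))))))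
      · exact Or.inr (Or.inr (Or.inr (Or.inr (Or.inr (Or.inr (Or.inr (Or.inr (Or.inl ⟨by omega, by omega⟩))))))))
      · exact Or.inr (Or.inr (Or.inr (Or.inr (Or.inr (Or.inr (Or.inr (Or.inr (Or.inr (Or.inl ⟨by omega, by omega⟩)))))))))
      · exact Or.inr (Or.inr (Or.inr (Or.inr (Or.inr (Or.inr (Or.inr (Or.inr (Or.inr (Or.inr (Or.inl ⟨by omega, by omega⟩))))))))))
      · exact Or.inr (Or.inr (Or.inr (Or.inr (Or.inr (Or.inr (Or.inr (Or.inr (Or.inr (Or.inr (Or.inr (⟨by omega, by omega⟩)))))))))))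
      · exact Or.inl ⟨by omega, by omega⟩

theorem orbit5 (a b : ℕ) (h : a ^ 2 + 1 = 2 * b ^ 2) (h5 : 5 ∣ b) :
    7 ∣ a ∧ (b ^ 2) % 99 = 25 := by
  have key : ∀ (r : ℕ), b % 99 = r → r ^ 2 % 99 = 25 → b ^ 2 % 99 = 25 := by
    intro r h1 h2
    rw [Nat.pow_mod, h1]; exact h2
  rcases orbit b a h with h | h | h | h | h | h | h | h | h | h | h | h <;> obtain ⟨ha, hb⟩ := h
  · omega
  · exact ⟨by omega, key 5 (by omega) (by norm_num)⟩
  · omega
  · omega
  · exact ⟨by omega, key 94 (by omega) (by norm_num)⟩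
  · omega
  · omega
  · exact ⟨by omega, key 94 (by omega) (by norm_num)⟩
  · omega
  · omega
  · exact ⟨by omega, key 5 (by omega) (by norm_num)⟩
  · omega

theorem natsq {a b c : ℕ} (h : Nat.Coprime a b) (he : a * b = c ^ 2) : ∃ d, a = d ^ 2 := by
  obtain ⟨d, hd⟩ := exists_eq_pow_of_mul_eq_pow (Nat.isUnit_iff.mpr h) he
  exact ⟨d, hd⟩

theorem split (y w : ℕ) (h : y ^ 2 = 8 * w ^ 2 + 1) (h3 : 3 ∣ y) :
    ∃ a b : ℕ, a ^ 2 + 1 = 2 * b ^ 2 ∧ w = a * b ∧ y + 1 = 4 * b ^ 2 := by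
  have hodd : y % 2 = 1 := by
    rcases Nat.mod_two_eq_zero_or_one y with h0 | h0
    · exfalso
      have : y ^ 2 % 2 = 0 := by rw [Nat.pow_mod, h0]
      omega
    · exact h0
  obtain ⟨t, ht⟩ : ∃ t, y = 2 * t + 1 := ⟨y / 2, by omega⟩
  subst ht
  have h1 : t * (t + 1) = 2 * w ^ 2 := by nlinarith
  rcases Nat.even_or_odd t with ⟨s, hs⟩ | ⟨s, hs⟩
  · exfalso
    have hs' : t = 2 * s := by omega
    subst hs'
    have h2 : s * (2 * s + 1) = w ^ 2 := by nlinarith
    have hc : Nat.Coprime s (2 * s + 1) := by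
      rw [show 2 * s + 1 = 1 + s * 2 by ring]; simp
    obtain ⟨d, hd⟩ := natsq hc h2
    subst hd
    have h6 : d ^ 2 % 3 = 0 ∨ d ^ 2 % 3 = 1 := by
      have : d % 3 < 3 := Nat.mod_lt _ (by norm_num)
      rw [Nat.pow_mod]
      interval_cases (d % 3) <;> simp
    omega
  · obtain ⟨u, hu⟩ : ∃ u, u = s + 1 := ⟨_, rfl⟩
    have hs2 : s = u - 1 := by omega
    have hu1 : 1 ≤ u := by omega
    have ht' : t + 1 = 2 * u := by omega
    have h2 : t * u = w ^ 2 := by
      rw [ht'] at h1; nlinarith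
    have hc : Nat.Coprime t u := by
      have : t + 1 = 2 * u := ht'
      rw [Nat.coprime_iff_gcd_eq_one]
      have hd1 := Nat.gcd_dvd_left t u
      have hd2 := Nat.gcd_dvd_right t u
      have hd3 : Nat.gcd t u ∣ 1 := by
        have h9 : Nat.gcd t u ∣ t + 1 := by rw [this]; exact Dvd.dvd.mul_left hd2 2
        exact (Nat.dvd_add_right hd1).mp h9
      exact Nat.dvd_one.mp hd3
    obtain ⟨a, ha⟩ := natsq hc h2
    obtain ⟨b, hb⟩ := natsq hc.symm (by rw [mul_comm]; exact h2)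
    refine ⟨a, b, by omega, ?_, by omega⟩
    have h7 : (a * b) ^ 2 = w ^ 2 := by rw [mul_pow, ← ha, ← hb, h2]
    exact ((Nat.pow_left_injective (n := 2) (by norm_num)) h7).symm

theorem mod4 : ∀ d : ℕ, 0 < d → (∀ p : ℕ, p.Prime → p ∣ d → p % 4 = 1) → d % 4 = 1 := by
  intro d
  induction d using Nat.recOnMul with
  | zero => intro h; omega
  | one => intro _ _; rfl
  | prime p hp => intro _ h; exact h p hp (dvd_refl p)
  | mul a b iha ihb =>
    intro h hp
    have ha : 0 < a := Nat.pos_of_ne_zero (by rintro rfl; simp at h)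
    have hb : 0 < b := Nat.pos_of_ne_zero (by rintro rfl; simp at h)
    have h1 := iha ha (fun p hpp hpa => hp p hpp (Dvd.dvd.mul_right hpa b))
    have h2 := ihb hb (fun p hpp hpa => hp p hpp (Dvd.dvd.mul_left hpa a))
    rw [Nat.mul_mod, h1, h2]

theorem s2_mul {a b : ℕ} (h : Nat.Coprime a b) : s2 (a * b) = s2 a * s2 b := by
  have h1 : ∀ n : ℕ, s2 n = ArithmeticFunction.sigma 2 n := by
    intro n; rw [ArithmeticFunction.sigma_apply]; rfl
  rw [h1, h1, h1]
  exact ArithmeticFunction.isMultiplicative_sigma.map_mul_of_coprime h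

theorem low (y : ℕ) (hy : 0 < y) (h3 : 3 ∣ y) : 91 * y ^ 4 ≤ 81 * s2 (y ^ 2) := by
  obtain ⟨k, hk⟩ := h3
  subst hk
  have hk : 0 < k := by omega
  have hsub : ({(3 * k) ^ 2, 3 * k ^ 2, k ^ 2} : Finset ℕ) ⊆ ((3 * k) ^ 2).divisors := by
    intro x hx
    simp only [Finset.mem_insert, Finset.mem_singleton] at hx
    rw [Nat.mem_divisors]
    refine ⟨?_, by positivity⟩
    rcases hx with h | h | h
    · exact h ▸ dvd_refl _
    · exact h ▸ ⟨3, by ring⟩
    · exact h ▸ ⟨9, by ring⟩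
  have hk2 : 0 < k ^ 2 := by positivity
  have h1 := Finset.sum_le_sum_of_subset (f := fun d : ℕ => d ^ 2) hsub
  have e : (3 * k) ^ 2 = 9 * k ^ 2 := by ring
  have hn1 : (3 * k) ^ 2 ∉ ({3 * k ^ 2, k ^ 2} : Finset ℕ) := by
    simp only [Finset.mem_insert, Finset.mem_singleton]
    omega
  have hn2 : 3 * k ^ 2 ∉ ({k ^ 2} : Finset ℕ) := by
    simp only [Finset.mem_singleton]
    omega
  rw [Finset.sum_insert hn1, Finset.sum_insert hn2, Finset.sum_singleton] at h1
  have h2 : s2 ((3 * k) ^ 2) = ∑ d ∈ ((3 * k) ^ 2).divisors, d ^ 2 := rfl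
  rw [h2]
  nlinarith [h1]

end W35

open W35 in
/-- in the Pell case `35` divides `w` and `99` divides `y` -/
theorem w35 (up : UpStmt) (res : ResStmt) : ∀ y w : ℕ, 0 < w → y ^ 2 = 8 * w ^ 2 + 1 → 3 ∣ y →
    s2 (16 * w ^ 2) = s2 (2 * y ^ 2) → 35 ∣ w ∧ 99 ∣ y := by
  intro y w hw h h3 he
  obtain ⟨a, b, h1, h2, h4⟩ := split y w h h3
  have ha0 : 0 < a := Nat.pos_of_ne_zero (by rintro rfl; simp at h2; omega)
  have hb0 : 0 < b := Nat.pos_of_ne_zero (by rintro rfl; simp at h2; omega)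
  by_cases h5 : 5 ∣ b
  · obtain ⟨h7, h9⟩ := orbit5 a b h1 h5
    constructor
    · subst h2
      exact Nat.Coprime.mul_dvd_of_dvd_of_dvd (by norm_num : Nat.Coprime 5 7)
        (Dvd.dvd.mul_left h5 a) (Dvd.dvd.mul_right h7 b)
    · omega
  · exfalso
    -- residues of a, b
    have ha5 : ¬ 5 ∣ a := by
      intro h5a
      have e1 : a ^ 2 % 5 = 0 := by
        obtain ⟨c, hc⟩ := h5a
        subst hc
        have : (5 * c) ^ 2 = 5 * (5 * c ^ 2) := by ring
        omega
      have e2 : b ^ 2 % 5 = 0 ∨ b ^ 2 % 5 = 1 ∨ b ^ 2 % 5 = 4 := by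
        have : b % 5 < 5 := Nat.mod_lt _ (by norm_num)
        rw [Nat.pow_mod]
        interval_cases (b % 5) <;> simp
      omega
    have haodd : a % 2 = 1 := by
      rcases Nat.mod_two_eq_zero_or_one a with h0 | h0
      · exfalso
        have : a ^ 2 % 2 = 0 := by rw [Nat.pow_mod, h0]
        omega
      · exact h0
    have hbodd : b % 2 = 1 := by
      rcases Nat.mod_two_eq_zero_or_one b with h0 | h0
      · exfalso
        obtain ⟨c, hc⟩ : ∃ c, b = 2 * c := ⟨b / 2, by omega⟩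
        obtain ⟨e, he'⟩ : ∃ e, a = 2 * e + 1 := ⟨a / 2, by omega⟩
        subst hc; subst he'
        have : (2 * e + 1) ^ 2 + 1 = 4 * (e ^ 2 + e) + 2 := by ring
        have h' : 2 * (2 * c) ^ 2 = 4 * (2 * c ^ 2) := by ring
        omega
      · exact h0
    have hb3 : ¬ 3 ∣ b := by
      intro h3b
      have e1 : b ^ 2 % 3 = 0 := by
        obtain ⟨c, hc⟩ := h3b
        subst hc
        have : (3 * c) ^ 2 = 3 * (3 * c ^ 2) := by ring
        omega
      omega
    have hcop : Nat.Coprime a b := by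
      rw [Nat.coprime_iff_gcd_eq_one]
      have hd1 := Nat.gcd_dvd_left a b
      have hd2 := Nat.gcd_dvd_right a b
      have hd3 : Nat.gcd a b ∣ 1 := by
        have h8 : Nat.gcd a b ∣ a ^ 2 := Dvd.dvd.pow hd1 (by norm_num)
        have h9 : Nat.gcd a b ∣ a ^ 2 + 1 := by
          rw [h1]; exact Dvd.dvd.mul_left (Dvd.dvd.pow hd2 (by norm_num)) 2
        exact (Nat.dvd_add_right h8).mp h9
      exact Nat.dvd_one.mp hd3
    -- divisors of a^2
    have hA : ∀ d ∈ (a ^ 2).divisors, d % 120 ∈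
        ({1, 7, 17, 23, 31, 41, 47, 49, 71, 73, 79, 89, 97, 103, 113, 119} : Finset ℕ) := by
      intro d hd
      have hr := res a b h1 d hd
      have hd5 : ¬ 5 ∣ d := by
        intro hd5
        exact ha5 (Nat.Prime.dvd_of_dvd_pow (by norm_num) (dvd_trans hd5 (Nat.dvd_of_mem_divisors hd)))
      simp only [Finset.mem_insert, Finset.mem_singleton]
      omega
    have hB : ∀ d ∈ (b ^ 2).divisors, d % 60 ∈
        ({1, 13, 17, 29, 37, 41, 49, 53} : Finset ℕ) := by
      intro d hd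
      have hdd := Nat.dvd_of_mem_divisors hd
      have hd5 : ¬ 5 ∣ d := by
        intro hd5
        exact h5 (Nat.Prime.dvd_of_dvd_pow (by norm_num) (dvd_trans hd5 hdd))
      have hd3 : ¬ 3 ∣ d := by
        intro hd3
        exact hb3 (Nat.Prime.dvd_of_dvd_pow (by norm_num) (dvd_trans hd3 hdd))
      have hd4 : d % 4 = 1 := by
        refine mod4 d (Nat.pos_of_mem_divisors hd) ?_
        intro p hp hpd
        have := Fact.mk hp
        have hpb : p ∣ b := Nat.Prime.dvd_of_dvd_pow hp (dvd_trans hpd hdd)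
        have hp2 : p % 2 = 1 := by
          rcases hp.eq_two_or_odd with h0 | h0
          · subst h0; omega
          · exact h0
        have hz : ((a : ZMod p)) ^ 2 = -1 := by
          have : ((a ^ 2 + 1 : ℕ) : ZMod p) = 0 := by
            rw [h1, ZMod.natCast_eq_zero_iff]
            exact Dvd.dvd.mul_left (Dvd.dvd.pow hpb (by norm_num)) 2
          push_cast at this
          exact eq_neg_of_add_eq_zero_left this
        have := ZMod.mod_four_ne_three_of_sq_eq_neg_one hz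
        omega
      have q4 : d % 60 % 4 = 1 := by omega
      have q3 : d % 60 % 3 ≠ 0 := by omega
      have q5 : d % 60 % 5 ≠ 0 := by omega
      have ql : d % 60 < 60 := Nat.mod_lt _ (by norm_num)
      generalize d % 60 = r at q4 q3 q5 ql ⊢
      clear * - q4 q3 q5 ql
      revert q4 q3 q5
      interval_cases r <;> decide
    have uA := up (a ^ 2) 120 _ (by positivity) (by norm_num) (by decide) hA
    have uB := up (b ^ 2) 60 _ (by positivity) (by norm_num) (by decide) hB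
    have cA : (s2 (a ^ 2) : ℝ) ≤ (a : ℝ) ^ 4 * (10316 / 10000) := by
      refine le_trans uA ?_
      push_cast
      rw [show ((a : ℝ) ^ 2) ^ 2 = (a : ℝ) ^ 4 by ring]
      refine mul_le_mul_of_nonneg_left ?_ (by positivity)
      rw [Finset.sum_insert (by decide), Finset.sum_insert (by decide), Finset.sum_insert (by decide),
        Finset.sum_insert (by decide), Finset.sum_insert (by decide), Finset.sum_insert (by decide),
        Finset.sum_insert (by decide), Finset.sum_insert (by decide), Finset.sum_insert (by decide),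
        Finset.sum_insert (by decide), Finset.sum_insert (by decide), Finset.sum_insert (by decide),
        Finset.sum_insert (by decide), Finset.sum_insert (by decide), Finset.sum_insert (by decide),
        Finset.sum_singleton]
      rw [show (Finset.card ({1, 7, 17, 23, 31, 41, 47, 49, 71, 73, 79, 89, 97, 103, 113, 119} : Finset ℕ)) = 16 by decide]
      norm_num
    have cB : (s2 (b ^ 2) : ℝ) ≤ (b : ℝ) ^ 4 * (10172 / 10000) := by
      refine le_trans uB ?_
      push_cast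
      rw [show ((b : ℝ) ^ 2) ^ 2 = (b : ℝ) ^ 4 by ring]
      refine mul_le_mul_of_nonneg_left ?_ (by positivity)
      rw [Finset.sum_insert (by decide), Finset.sum_insert (by decide), Finset.sum_insert (by decide),
        Finset.sum_insert (by decide), Finset.sum_insert (by decide), Finset.sum_insert (by decide),
        Finset.sum_insert (by decide),
        Finset.sum_singleton]
      rw [show (Finset.card ({1, 13, 17, 29, 37, 41, 49, 53} : Finset ℕ)) = 8 by decide]
      norm_num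
    -- multiplicativity
    have hy0 : 0 < y := by
      rcases Nat.eq_zero_or_pos y with h0 | h0
      · subst h0; simp at h
      · exact h0
    have hyodd : y % 2 = 1 := by omega
    have m1 : s2 (2 * y ^ 2) = 5 * s2 (y ^ 2) := by
      rw [s2_mul (Nat.Coprime.pow_right 2 ((Nat.coprime_two_left).mpr (Nat.odd_iff.mpr hyodd)))]
      rfl
    have m2 : s2 (16 * w ^ 2) = 341 * (s2 (a ^ 2) * s2 (b ^ 2)) := by
      have hwodd : Odd w := by
        rw [h2]; exact (Nat.odd_iff.mpr haodd).mul (Nat.odd_iff.mpr hbodd)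
      have hc16 : Nat.Coprime 16 (w ^ 2) := by
        rw [show (16 : ℕ) = 2 ^ 4 by norm_num]
        exact Nat.Coprime.pow 4 2 ((Nat.coprime_two_left).mpr hwodd)
      rw [s2_mul hc16, h2, mul_pow, s2_mul (Nat.Coprime.pow 2 2 hcop)]
      rfl
    have l1 := low y hy0 h3
    have hl : 91 * (64 * w ^ 4) ≤ 81 * s2 (y ^ 2) := by
      have : 64 * w ^ 4 ≤ y ^ 4 := by
        have e : y ^ 4 = (8 * w ^ 2 + 1) ^ 2 := by rw [← h]; ring
        rw [e]; nlinarith
      omega
    rw [m1, m2] at he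
    have he' : (341 : ℝ) * ((s2 (a ^ 2) : ℝ) * (s2 (b ^ 2) : ℝ)) = 5 * (s2 (y ^ 2) : ℝ) := by exact_mod_cast he
    have hl' : (91 : ℝ) * (64 * (w : ℝ) ^ 4) ≤ 81 * (s2 (y ^ 2) : ℝ) := by exact_mod_cast hl
    have hprod : (s2 (a ^ 2) : ℝ) * (s2 (b ^ 2) : ℝ) ≤ ((a : ℝ) ^ 4 * (10316 / 10000)) * ((b : ℝ) ^ 4 * (10172 / 10000)) :=
      mul_le_mul cA cB (by positivity) (by positivity)
    have hw4 : (w : ℝ) ^ 4 = (a : ℝ) ^ 4 * (b : ℝ) ^ 4 := by
      rw [h2]; push_cast; ring
    have hwpos : (0 : ℝ) < (w : ℝ) ^ 4 := by positivity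
    have hp2 : (s2 (a ^ 2) : ℝ) * (s2 (b ^ 2) : ℝ) ≤ (w : ℝ) ^ 4 * (10316 / 10000 * (10172 / 10000)) := by
      rw [hw4]; linarith [hprod]
    nlinarith [hp2, he', hl', hwpos]

end Pool.Agent.H77.SG
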